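import Mathlib

/-!
# Square roots of `X^[*] X` and `H`-selfadjoint square roots

For `𝔽 = ℂ` and for `𝔽 = ℝ` there are `H`, `X`, `Y` with `Y² = X^[*] X` and `ker Y = ker X = 0`, such
that no `H`-selfadjoint `A` satisfies `A² = X^[*] X`.

Idea: `X^[*] X` has the eigenvalues `-1` and `-4`, both semisimple of multiplicity two, the form is
positive definite on the first and negative definite on the second eigenspace. Each eigenspace has
a rotation by a right angle, so square roots exist, but on a definite space an `H`-selfadjoint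
square root would have real eigenvalues. The inertia of `H (X^[*] X) = X* H X` does not exclude this.
-/

set_option autoImplicit false

open Matrix

namespace Pool.Agent.Results.MP_154e02_al.NoSelfadjointRoot

/-- the `H`-adjoint of `X`: `H⁻¹ X* H` -/
noncomputable def hadj {F : Type} [RCLike F] {n : ℕ} (H X : Matrix (Fin n) (Fin n) F) :
    Matrix (Fin n) (Fin n) F := H⁻¹ * Xᴴ * H

/-- The negation of Q1 over the field `F` in size `n`: there are an invertible Hermitian `H` and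
matrices `X`, `Y` with `Y² = X^[*] X` and `ker Y = ker X` such that no `H`-selfadjoint `A` satisfies
`A² = X^[*] X` and `ker A = ker X`. -/
def Fails (F : Type) [RCLike F] (n : ℕ) : Prop :=
  ∃ H X Y : Matrix (Fin n) (Fin n) F, IsUnit H ∧ Hᴴ = H ∧ Y * Y = hadj H X * X ∧
    LinearMap.ker (toLin' Y) = LinearMap.ker (toLin' X) ∧
    ¬ ∃ A : Matrix (Fin n) (Fin n) F, hadj H A = A ∧ A * A = hadj H X * X ∧
      LinearMap.ker (toLin' A) = LinearMap.ker (toLin' X)

lemma ker_eq_bot {F : Type} [RCLike F] {n : ℕ} (A B : Matrix (Fin n) (Fin n) F) (h : B * A = 1) :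
    LinearMap.ker (toLin' A) = ⊥ := by
  rw [LinearMap.ker_eq_bot']
  intro v hv
  have h1 : A *ᵥ v = 0 := by simpa using hv
  have h2 : (B * A) *ᵥ v = 0 := by rw [← mulVec_mulVec, h1, mulVec_zero]
  simpa [h] using h2

section

variable (F : Type) [RCLike F]

/-- the Hermitian matrix -/
def mH : Matrix (Fin 4) (Fin 4) F := !![1, 0, 0, 0; 0, 1, 0, 0; 0, 0, -1, 0; 0, 0, 0, -1]

/-- the matrix `X` -/
def mX : Matrix (Fin 4) (Fin 4) F := !![0, 0, 2, 0; 0, 0, 0, 2; 1, 0, 0, 0; 0, 1, 0, 0]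

/-- the transpose of `X` -/
def mXt : Matrix (Fin 4) (Fin 4) F := !![0, 0, 1, 0; 0, 0, 0, 1; 2, 0, 0, 0; 0, 2, 0, 0]

/-- the matrix `Y` -/
def mY : Matrix (Fin 4) (Fin 4) F := !![0, -1, 0, 0; 1, 0, 0, 0; 0, 0, 0, -2; 0, 0, 2, 0]

/-- the matrix `X^[*] X` -/
def mB : Matrix (Fin 4) (Fin 4) F := !![-1, 0, 0, 0; 0, -1, 0, 0; 0, 0, -4, 0; 0, 0, 0, -4]

lemma mH_mul : mH F * mH F = 1 := by
  ext i j
  fin_cases i <;> fin_cases j <;> simp [mH, Matrix.mul_apply, Fin.sum_univ_four]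

lemma mH_inv : (mH F)⁻¹ = mH F := inv_eq_right_inv (mH_mul F)

lemma mH_herm : (mH F)ᴴ = mH F := by
  ext i j
  fin_cases i <;> fin_cases j <;> simp [mH, Matrix.conjTranspose_apply]

lemma mX_herm : (mX F)ᴴ = mXt F := by
  ext i j
  fin_cases i <;> fin_cases j <;> simp [mX, mXt, Matrix.conjTranspose_apply]

lemma hadj_mX : hadj (mH F) (mX F) * mX F = mB F := by
  rw [hadj, mH_inv, mX_herm]
  have h1 : mH F * mXt F = !![0, 0, 1, 0; 0, 0, 0, 1; -2, 0, 0, 0; 0, -2, 0, 0] := by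
    ext i j
    fin_cases i <;> fin_cases j <;> simp [mH, mXt, Matrix.mul_apply, Fin.sum_univ_four]
  have h2 : mH F * mX F = !![0, 0, 2, 0; 0, 0, 0, 2; -1, 0, 0, 0; 0, -1, 0, 0] := by
    ext i j
    fin_cases i <;> fin_cases j <;> simp [mH, mX, Matrix.mul_apply, Fin.sum_univ_four]
  rw [Matrix.mul_assoc, h1, h2]
  ext i j
  fin_cases i <;> fin_cases j <;> simp [mB, Matrix.mul_apply, Fin.sum_univ_four]
  all_goals norm_num

lemma mY_mul : mY F * mY F = mB F := by
  ext i j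
  fin_cases i <;> fin_cases j <;> simp [mY, mB, Matrix.mul_apply, Fin.sum_univ_four]
  all_goals norm_num

lemma mY_ker : LinearMap.ker (toLin' (mY F)) = ⊥ := by
  refine ker_eq_bot _ !![0, 1, 0, 0; -1, 0, 0, 0; 0, 0, 0, 1 / 2; 0, 0, -1 / 2, 0] ?_
  ext i j
  fin_cases i <;> fin_cases j <;> simp [mY, Matrix.mul_apply, Fin.sum_univ_four]

lemma mX_ker : LinearMap.ker (toLin' (mX F)) = ⊥ := by
  refine ker_eq_bot _ !![0, 0, 1, 0; 0, 0, 0, 1; 1 / 2, 0, 0, 0; 0, 1 / 2, 0, 0] ?_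
  ext i j
  fin_cases i <;> fin_cases j <;> simp [mX, Matrix.mul_apply, Fin.sum_univ_four]

lemma no_root (A : Matrix (Fin 4) (Fin 4) F) (hA : hadj (mH F) A = A) (hA2 : A * A = mB F) :
    False := by
  have hc : A * mB F = mB F * A := by rw [← hA2, Matrix.mul_assoc]
  have h1 : (mH F) * A = Aᴴ * mH F := by
    rw [hadj, mH_inv] at hA
    conv_lhs => rw [← hA, ← Matrix.mul_assoc, ← Matrix.mul_assoc, mH_mul, Matrix.one_mul]
  have c02 : A 0 2 = 0 := by
    have h := congrFun (congrFun hc 0) 2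
    simp [mB, Matrix.mul_apply, Fin.sum_univ_four] at h
    linear_combination (1 / 3) * h
  have c03 : A 0 3 = 0 := by
    have h := congrFun (congrFun hc 0) 3
    simp [mB, Matrix.mul_apply, Fin.sum_univ_four] at h
    linear_combination (1 / 3) * h
  have s01 : A 1 0 = (starRingEnd F) (A 0 1) := by
    have h := congrFun (congrFun h1 1) 0
    simpa [mH, Matrix.mul_apply, Fin.sum_univ_four] using h
  have s00 : (starRingEnd F) (A 0 0) = A 0 0 := by
    have h := congrFun (congrFun h1 0) 0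
    simp [mH, Matrix.mul_apply, Fin.sum_univ_four] at h
    exact h.symm
  have e00 : A 0 0 * (starRingEnd F) (A 0 0) + A 0 1 * (starRingEnd F) (A 0 1) = -1 := by
    have h := congrFun (congrFun hA2 0) 0
    rw [Matrix.mul_apply, Fin.sum_univ_four, c02, c03, s01] at h
    rw [s00]
    simpa [mB] using h
  rw [RCLike.mul_conj, RCLike.mul_conj] at e00
  have h2 : (((‖A 0 0‖ ^ 2 + ‖A 0 1‖ ^ 2 : ℝ)) : F) = ((-1 : ℝ) : F) := by
    push_cast
    exact e00
  have h3 : ‖A 0 0‖ ^ 2 + ‖A 0 1‖ ^ 2 = (-1 : ℝ) := RCLike.ofReal_injective h2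
  have h4 : 0 ≤ ‖A 0 0‖ ^ 2 + ‖A 0 1‖ ^ 2 := by positivity
  linarith

lemma fails : Fails F 4 := by
  refine ⟨mH F, mX F, mY F, ?_, mH_herm F, ?_, ?_, ?_⟩
  · exact IsUnit.of_mul_eq_one (mH F) (mH_mul F)
  · rw [mY_mul, hadj_mX]
  · rw [mX_ker, mY_ker]
  · rintro ⟨A, hA, hA2, -⟩
    rw [hadj_mX] at hA2
    exact no_root F A hA hA2

end

/-- The answer to Q1 is negative over both fields: for `𝔽 = ℝ` and for `𝔽 = ℂ` there are `H`, `X`,
`Y` with `Y² = X^[*] X` and `ker Y = ker X` such that no `H`-selfadjoint `A` satisfies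
`A² = X^[*] X` and `ker A = ker X`. -/
theorem result : (∃ n : ℕ, 1 ≤ n ∧ Fails ℝ n) ∧ (∃ n : ℕ, 1 ≤ n ∧ Fails ℂ n) :=
  ⟨⟨4, by norm_num, fails ℝ⟩, ⟨4, by norm_num, fails ℂ⟩⟩

end Pool.Agent.Results.MP_154e02_al.NoSelfadjointRoot
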